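import Pool.Agent.Lib.MP_0c65c1_al.Final

set_option autoImplicit false

open Pool.Agent.Lib.MP_0c65c1_al

/-- Let `2 ≤ n ≤ m` and let `p` be a prime. There is a class `α` in `K_n^M(ℂ(x_1, …, x_m)) / p`
such that, if `α` is a sum of `r` symbols, then
`r ≥ (binomial (m - 1) (n - 1) + (m - 1)) / n`. -/
theorem Pool.Agent.Results.MP_0c65c1_al.SymbolLengthLower.result (m n : ℕ) (hn : 2 ≤ n)
    (hnm : n ≤ m) (p : ℕ) (hp : p.Prime) :
    ∃ α : MilnorK (FractionRing (MvPolynomial (Fin m) ℂ)) n p,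
      ∀ (r : ℕ) (s : Fin r → Fin n → (FractionRing (MvPolynomial (Fin m) ℂ))ˣ),
        α = ∑ i, symb p (s i) → (m - 1).choose (n - 1) + (m - 1) ≤ r * n := by
  obtain ⟨M, rfl⟩ : ∃ M, m = M + 1 := ⟨m - 1, by omega⟩
  obtain ⟨ν, rfl⟩ : ∃ ν, n = ν + 1 := ⟨n - 1, by omega⟩
  have _ : Fact p.Prime := ⟨hp⟩
  classical
  obtain ⟨c, hc⟩ : ∃ c : (Fin ν ↪o Fin M) → ℂ, Function.Injective c :=
    ⟨fun I => ((Fintype.equivFin (Fin ν ↪o Fin M) I : ℕ) : ℂ), fun I J h =>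
      (Fintype.equivFin _).injective (Fin.ext (Nat.cast_injective h))⟩
  refine ⟨∑ I : Fin ν ↪o Fin M, symb p (tup (c I) I), fun r s h => ?_⟩
  exact lower_bound p (by omega) (by omega) c hc r s h
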